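import Mathlib
import Pool.Agent.L7h1.AS.Stm

/-! Project AS, part DIA: the diagonal. -/

set_option autoImplicit false

namespace Pool.Agent.L7h69.AS

open Finset Filter Topology Pool.Agent.L7h1.AS

lemma lam_nonneg (n : ℕ) : 0 ≤ lam n := by
  unfold lam
  split_ifs with h
  · exact Real.log_natCast_nonneg n
  · exact le_rfl

lemma lam_le {n M : ℕ} (h : n ≤ M) : lam n ≤ Real.log M := by
  unfold lam
  split_ifs with hp
  · exact Real.log_le_log (by exact_mod_cast hp.pos) (by exact_mod_cast h)
  · exact Real.log_natCast_nonneg M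

theorem s_DIA (hS : S_SWT) : S_DIA := by
  intro C ε hε
  obtain ⟨X₁, hX⟩ := hS 0 1
  set δ : ℝ := min 1 ε / 3 with hδd
  have hm0 : 0 < min 1 ε := lt_min one_pos hε
  have hδ : 0 < δ := by positivity
  have hδ1 : δ ≤ 1 := by
    have := min_le_left 1 ε
    linarith
  have hδε : 3 * δ ≤ ε := by
    have := min_le_right 1 ε
    linarith
  have e1 : ∀ᶠ N : ℕ in atTop, Real.log N ^ C ≤ δ * N := by
    have h := (Real.isLittleO_pow_log_id_atTop (n := C)).bound hδ
    filter_upwards [tendsto_natCast_atTop_atTop.eventually h] with N hN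
    have h2 : Real.log N ^ C ≤ ‖Real.log N ^ C‖ := le_abs_self _
    refine h2.trans (hN.trans (le_of_eq ?_))
    simp
  have e2 : ∀ᶠ N : ℕ in atTop, (δ + 1) / δ ≤ Real.log N :=
    (Real.tendsto_log_atTop.comp tendsto_natCast_atTop_atTop).eventually_ge_atTop _
  obtain ⟨X₀, h⟩ := eventually_atTop.1
    ((e1.and e2).and ((eventually_ge_atTop X₁).and (eventually_ge_atTop 1)))
  refine ⟨X₀, fun N hN a ha => ?_⟩
  obtain ⟨⟨h1, h2⟩, h3, h4⟩ := h N hN
  have hN0 : (0 : ℝ) < N := by exact_mod_cast h4
  set M : ℕ := N + a with hM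
  have hM1 : (M : ℝ) = N + a := by rw [hM]; push_cast; ring
  have haN : (a : ℝ) ≤ δ * N := ha.trans h1
  have hMN : (M : ℝ) ≤ (1 + δ) * N := by rw [hM1]; linarith
  have hNM : (N : ℝ) ≤ M := by
    rw [hM1]
    have : (0 : ℝ) ≤ a := Nat.cast_nonneg a
    linarith
  have hM0 : (0 : ℝ) < M := lt_of_lt_of_le hN0 hNM
  have hlN : 1 ≤ Real.log N := by
    have : 1 ≤ (δ + 1) / δ := by
      rw [le_div_iff₀ hδ]
      linarith
    linarith
  have hlNM : Real.log N ≤ Real.log M := Real.log_le_log hN0 hNM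
  have hlM : Real.log M ≤ Real.log N + δ := by
    have h5 : Real.log M ≤ Real.log ((1 + δ) * N) := Real.log_le_log hM0 hMN
    rw [Real.log_mul (by linarith) hN0.ne'] at h5
    have h6 := Real.log_le_sub_one_of_pos (by linarith : 0 < 1 + δ)
    linarith
  -- the sum over `m ≤ M`
  have hsum : ∑ n ∈ Icc 1 M, lam n ≤ M + M / Real.log M := by
    have h5 := hX M (by omega) 1 le_rfl (by simp) 0 (by simp)
    have h6 : (Icc 1 M).filter (fun n => n ≡ 0 [MOD 1]) = Icc 1 M := by
      apply filter_true_of_mem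
      intro n _
      exact Nat.modEq_one
    rw [h6, Nat.totient_one, Nat.cast_one, div_one, pow_one] at h5
    have h7 := (abs_le.1 h5).2
    linarith
  have hsh : ∑ n ∈ Icc 1 N, lam (n + a) ≤ ∑ n ∈ Icc 1 M, lam n := by
    have h5 := sum_map (Icc 1 N) (addRightEmbedding a) lam
    have h6 : ∑ n ∈ Icc 1 N, lam (n + a) = ∑ n ∈ (Icc 1 N).map (addRightEmbedding a), lam n := by
      rw [h5]
      rfl
    rw [h6, map_add_right_Icc]
    apply sum_le_sum_of_subset_of_nonneg
    · exact Icc_subset_Icc (by omega) le_rfl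
    · intro i _ _
      exact lam_nonneg i
  calc ∑ n ∈ Icc 1 N, lam (n + a) ^ 2 ≤ ∑ n ∈ Icc 1 N, Real.log M * lam (n + a) := by
        apply sum_le_sum
        intro n hn
        rw [_root_.sq]
        have hn2 := (mem_Icc.1 hn).2
        exact mul_le_mul_of_nonneg_right (lam_le (by omega)) (lam_nonneg _)
    _ = Real.log M * ∑ n ∈ Icc 1 N, lam (n + a) := by rw [mul_sum]
    _ ≤ Real.log M * (M + M / Real.log M) :=
        mul_le_mul_of_nonneg_left (hsh.trans hsum) (by linarith)
    _ = M * (Real.log M + 1) := by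
        have : Real.log M ≠ 0 := by
          have : 0 < Real.log M := by linarith
          exact this.ne'
        field_simp
    _ ≤ ((1 + δ) * N) * ((1 + δ) * Real.log N) := by
        refine mul_le_mul hMN ?_ (by linarith) (by positivity)
        have h5 : δ + 1 ≤ δ * Real.log N := by
          have := (div_le_iff₀ hδ).1 h2
          linarith
        linarith
    _ = (1 + δ) ^ 2 * (N * Real.log N) := by ring
    _ ≤ (1 + ε) * (N * Real.log N) := by
        refine mul_le_mul_of_nonneg_right ?_ (by positivity)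
        nlinarith
    _ = (1 + ε) * N * Real.log N := by ring

end Pool.Agent.L7h69.AS
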